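import Pool.Agent.Work.MP_64ea0f_cs.InterfaceB

set_option autoImplicit false

/-! # Stage B: stabilisers of base points for right actions (used in VRC and FT) -/

namespace Pool.CS

section
variable {Λ : Type} {G : SimpleGraph Λ} {V : Type}

/-- a subgroup is of finite index if a function with finitely many values separates its cosets -/
theorem fin_index_of_map {Γ : Type} [Group Γ] (K : Subgroup Γ) {α : Type} [Finite α]
    (f : Γ → α) (h : ∀ g g', f g = f g' → g⁻¹ * g' ∈ K) : K.FiniteIndex := by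
  have h1 : Finite (Γ ⧸ K) := by
    apply Finite.of_injective (fun q : Γ ⧸ K => f q.out)
    intro q q' hq
    have h2 := h _ _ hq
    have h3 : ((q.out : Γ) : Γ ⧸ K) = ((q'.out : Γ) : Γ ⧸ K) := QuotientGroup.eq.mpr h2
    rwa [QuotientGroup.out_eq', QuotientGroup.out_eq'] at h3
  exact Subgroup.finiteIndex_of_finite_quotient

/-- equivariance of the right action -/
theorem r_equiv (L : LS G V) (f : V → V) (h : ∀ a v, f (L.τ a v) = L.τ a (f v)) (v : V)
    (c : RC G) : f (L.r v c) = L.r (f v) c := L.r_map L f h v c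

/-- the elements of `RC G` which move the base point inside of its orbit -/
theorem stab_fin (L : LS G V) {Γ : Type} [Group Γ] (A : Γ → V → V) (A1 : ∀ v, A 1 v = v)
    (Am : ∀ g g' v, A (g * g') v = A g (A g' v)) (Ac : ∀ g a v, A g (L.τ a v) = L.τ a (A g v))
    (b : V) (hb : ∀ g, A g b = b → g = 1) {α : Type} [Finite α] (ι : V → α)
    (hι : ∀ v v', ι v = ι v' → ∃ g, v = A g v') :
    ∃ (K : Subgroup (RC G)) (r : K →* Γ), K.FiniteIndex ∧
      (∀ γ, γ ∈ K ↔ ∃ g, L.r b γ = A g b) ∧ ∀ γ : K, L.r b γ.1 = A (r γ) b := by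
  have hinj : ∀ g g', A g b = A g' b → g = g' := by
    intro g g' h
    have h1 : A (g'⁻¹ * g) b = b := by
      rw [Am, h, ← Am, inv_mul_cancel, A1]
    have h2 := hb _ h1
    rw [inv_mul_eq_one] at h2
    exact h2.symm
  have hmul : ∀ γ γ' g g', L.r b γ = A g b → L.r b γ' = A g' b → L.r b (γ * γ') = A (g * g') b := by
    intro γ γ' g g' h h'
    rw [L.r_mul, h, ← r_equiv L (A g) (Ac g), h', Am]
  let K : Subgroup (RC G) :=
    { carrier := {γ | ∃ g, L.r b γ = A g b}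
      one_mem' := ⟨1, by rw [L.r_one, A1]⟩
      mul_mem' := by
        rintro γ γ' ⟨g, h⟩ ⟨g', h'⟩
        exact ⟨g * g', hmul _ _ _ _ h h'⟩
      inv_mem' := by
        rintro γ ⟨g, h⟩
        refine ⟨g⁻¹, ?_⟩
        have h1 : A g (L.r b γ⁻¹) = b := by
          rw [r_equiv L (A g) (Ac g), ← h, ← L.r_mul, mul_inv_cancel, L.r_one]
        have h2 := congrArg (A g⁻¹) h1
        rw [← Am, inv_mul_cancel, A1] at h2
        exact h2 }
  have hK : ∀ γ, γ ∈ K ↔ ∃ g, L.r b γ = A g b := fun γ => Iff.rfl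
  choose r hr using fun γ : K => (hK γ.1).mp γ.2
  refine ⟨K, ⟨⟨r, ?_⟩, ?_⟩, ?_, hK, hr⟩
  · apply hinj
    rw [← hr 1, A1]
    exact L.r_one b
  · intro γ γ'
    apply hinj
    change A (r (γ * γ')) b = _
    rw [← hr (γ * γ')]
    exact hmul _ _ _ _ (hr γ) (hr γ')
  · apply fin_index_of_map K (fun γ => ι (L.r b γ⁻¹))
    intro γ γ' h
    obtain ⟨g, hg⟩ := hι _ _ h
    rw [hK]
    refine ⟨g, ?_⟩
    rw [L.r_mul, hg, ← r_equiv L (A g) (Ac g), ← L.r_mul, inv_mul_cancel, L.r_one]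

end

namespace Rd
variable (D : Rd)

/-- orbits of a subgroup of `par J` of finite index on `XJ J` -/
theorem orb (hV : Stmt_VX1) (J : Set D.S) (P : Set (Set D.V)) (hP : P.Finite)
    (hPJ : ∀ x, D.XJ J x → ∃ w ∈ D.par J, D.act w x ∈ P) (N : Subgroup D.W)
    (hN : N.relIndex (D.par J) ≠ 0) :
    ∃ (α : Type) (_ : Finite α) (ι : {x : Set D.V // D.XJ J x} → α),
      ∀ x x', ι x = ι x' → ∃ n ∈ N, x.1 = D.act n x'.1 := by
  obtain ⟨_, _, h1, hm, _⟩ := hV D
  have hfin : Finite (D.par J ⧸ N.subgroupOf (D.par J)) := by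
    have : (N.subgroupOf (D.par J)).index ≠ 0 := hN
    exact Subgroup.finiteIndex_iff_finite_quotient.mp (Subgroup.finiteIndex_iff.mpr this)
  choose w hw hwP using fun x : {x : Set D.V // D.XJ J x} => hPJ x.1 x.2
  have hPf : Finite P := hP
  refine ⟨P × (D.par J ⧸ N.subgroupOf (D.par J)), inferInstance,
    fun x => (⟨D.act (w x) x.1, hwP x⟩, ((⟨w x, hw x⟩ : D.par J) : D.par J ⧸ N.subgroupOf (D.par J))),
    ?_⟩
  intro x x' h
  rw [Prod.mk.injEq] at h
  obtain ⟨e1, e2⟩ := h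
  have e3 : D.act (w x) x.1 = D.act (w x') x'.1 := congrArg Subtype.val e1
  rw [QuotientGroup.eq, Subgroup.mem_subgroupOf] at e2
  refine ⟨(w x)⁻¹ * w x', e2, ?_⟩
  rw [hm, ← e3, ← hm, inv_mul_cancel, h1]

end Rd

end Pool.CS
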