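import Pool.Agent.Work.MP_64ea0f_cs.InterfaceF

set_option autoImplicit false

/-! # CVX, CEN -/

namespace Pool.CS

theorem cvx_thm : Stmt_BAS → Stmt_SGN → Stmt_PAR → Stmt_CVX := by
  intro hB hS hP D J μ hμ ν hν γ hγ h1 h2 hμJ hγJ hμP hγP
  obtain ⟨_, _, _, _, _, hB1, _, hRt, _, hrf, _⟩ := hB D
  obtain ⟨hs1, hs2, _⟩ := hS D
  obtain ⟨_, _, _, hrfJ, _, hPs⟩ := hP D J
  have hself : ∀ φ ∈ D.Rt, D.ρ (D.rf φ) φ = -φ := by
    intro φ hφ
    rw [hrf φ hφ, hB1 φ hφ]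
    module
  by_contra hνJ
  have hinvrf : ∀ φ ∈ D.Rt, D.ρ (D.rf φ)⁻¹ φ = -φ := by
    intro φ hφ
    have e1 : D.ρ (D.rf φ)⁻¹ (D.ρ (D.rf φ) (-φ)) = -φ := by
      rw [← Module.End.mul_apply, ← map_mul, inv_mul_cancel, map_one, Module.End.one_apply]
    rw [map_neg, hself φ hφ, neg_neg] at e1
    exact e1
  rcases hs1 ν hν with h | h
  · -- `ν` is positive
    have h3 : D.On (D.rf γ) ν := hPs _ ((D.par J).inv_mem (hrfJ γ hγ hγJ)) ν h hνJ
    have h4 := h2 _ h3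
    rw [Rd.On, hinvrf γ hγ] at h4
    exact hs2 γ hγP h4
  · -- `ν` is negative
    have h3 : D.On (D.rf μ) μ := by
      rw [Rd.On, hinvrf μ hμ]
      rcases hs1 μ hμ with h4 | h4
      · exact absurd h4 hμP
      · exact h4
    have h4 := h1 _ h3
    have h5 : ¬ D.In J (-ν) := by
      intro h6
      apply hνJ
      intro s hs
      have := h6 s hs
      rw [Pi.neg_apply, neg_eq_zero] at this
      exact this
    have h6 : D.ρ (D.rf μ)⁻¹ (-ν) ∈ D.Ps := hPs _ ((D.par J).inv_mem (hrfJ μ hμ hμJ)) (-ν) h h5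
    rw [map_neg] at h6
    exact hs2 _ h4 h6

theorem cen_thm : Stmt_RNK → Stmt_NRM → Stmt_DEO → Stmt_ESN → Stmt_CEN := by
  intro hR hN hDEO hESN D J h hE g hg
  have hnf := hESN D J h hE
  obtain ⟨hhJ, hess⟩ := hE
  obtain ⟨hn1, _⟩ := hN D J
  -- `g` normalises `par J`
  have h1 : h ^ 1 ∈ D.cp g J := by
    rw [pow_one, Rd.cp, Subgroup.mem_map]
    refine ⟨h, hhJ, ?_⟩
    change g * h * g⁻¹ = h
    rw [hg, mul_assoc, mul_inv_cancel, mul_one]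
  have h2 := hess 1 one_pos g J h1
  have h3 : D.cp 1 J = D.par J := by
    rw [Rd.cp, map_one]
    exact Subgroup.map_id _
  have h4 : D.cp 1 J ≤ D.cp g J := by rw [h3]; exact h2
  have h5 := (hR D 1 g J J h4).2.1 rfl
  rw [h3] at h5
  obtain ⟨p, hp, hpg⟩ := hn1 g h5.symm
  have h6 := hDEO D J hnf _ hpg
  exact ⟨p⁻¹, (D.par J).inv_mem hp, p * g, h6, by group⟩

end Pool.CS
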