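import Pool.Agent.Work.MP_64ea0f_cs_helper63.Orb

set_option autoImplicit false

/-! # FT: parabolic subgroups have the full profinite topology -/

namespace Pool.CS

namespace Rd
variable (D : Rd)

/-- the labels are the classes of an equivalence relation -/
theorem lab_eq (H : Subgroup D.W) {φ ψ : D.V} (h : φ ∈ D.lab H ψ) : D.lab H φ = D.lab H ψ := by
  obtain ⟨g, hg, h1⟩ := h
  have hinv : ∀ v, D.ρ g⁻¹ (D.ρ g v) = v := by
    intro v
    rw [← Module.End.mul_apply, ← map_mul, inv_mul_cancel, map_one, Module.End.one_apply]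
  ext χ
  constructor
  · rintro ⟨k, hk, h2⟩
    refine ⟨k * g, H.mul_mem hk hg, ?_⟩
    rw [map_mul, Module.End.mul_apply]
    rcases h1 with h1 | h1 <;> rcases h2 with h2 | h2
    · left; rw [h2, h1]
    · right; rw [h2, h1]
    · right; rw [h2, h1, map_neg]
    · left; rw [h2, h1, map_neg, neg_neg]
  · rintro ⟨k, hk, h2⟩
    refine ⟨k * g⁻¹, H.mul_mem hk (H.inv_mem hg), ?_⟩
    rw [map_mul, Module.End.mul_apply]
    rcases h1 with h1 | h1 <;> rcases h2 with h2 | h2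
    · left; rw [h2, h1, hinv]
    · right; rw [h2, h1, hinv]
    · right; rw [h2, h1, map_neg, hinv, map_neg, neg_neg]
    · left; rw [h2, h1, map_neg, hinv, map_neg]

theorem Lb_eq (H : Subgroup D.W) (a b : D.Lb H) {φ : D.V} (ha : φ ∈ a.1) (hb : φ ∈ b.1) :
    a = b := by
  obtain ⟨ψ, _, h1⟩ := a.2
  obtain ⟨χ, _, h2⟩ := b.2
  apply Subtype.ext
  rw [h1] at ha
  rw [h2] at hb
  rw [h1, h2, ← D.lab_eq H ha, ← D.lab_eq H hb]

/-- a root of `x` which is not in `τ_a x` has label `a` -/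
theorem mem_of_lost {H : Subgroup D.W} {L : LS (D.lg H) D.X} (hL : D.IsFlip H L) (a : D.Lb H)
    (x : D.X) {φ : D.V} (h : φ ∈ x.1) (h2 : φ ∉ (L.τ a x).1) : φ ∈ a.1 := by
  by_cases h3 : ∃ ψ, D.Mn x.1 ψ ∧ ψ ∈ a.1
  · obtain ⟨ψ, hψ, hψa⟩ := h3
    have h4 := (hL a x).1 ψ hψ hψa
    rw [h4] at h2
    by_cases h5 : φ = ψ
    · rw [h5]; exact hψa
    · exact absurd (show φ ∈ D.fl x.1 ψ from Set.mem_insert_of_mem _ ⟨h, h5⟩) h2
  · rw [(hL a x).2 (fun ψ hψ hψa => h3 ⟨ψ, hψ, hψa⟩)] at h2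
    exact absurd h h2

/-- the square property of `XJ J` -/
theorem XJ_square {H : Subgroup D.W} {L : LS (D.lg H) D.X} (hL : D.IsFlip H L) {a b : D.Lb H}
    (hab : (D.lg H).Adj a b) (J : Set D.S) (x : D.X) (h2 : D.XJ J (L.τ a x).1)
    (h3 : D.XJ J (L.τ b x).1) : D.XJ J (L.τ a (L.τ b x)).1 := by
  refine ⟨(L.τ a (L.τ b x)).2, ?_⟩
  intro φ hφ hφJ
  by_contra h4
  have h5 := D.mem_of_lost hL a (L.τ b x) (h3.2 φ hφ hφJ) h4
  rw [L.com a b hab x] at h4
  have h6 := D.mem_of_lost hL b (L.τ a x) (h2.2 φ hφ hφJ) h4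
  exact hab.ne (D.Lb_eq H a b h5 h6)

open Classical in
/-- the right action on `XJ J` -/
noncomputable def LJ {H : Subgroup D.W} (L : LS (D.lg H) D.X) (hL : D.IsFlip H L) (J : Set D.S) :
    LS (D.lg H) {x : D.X // D.XJ J x.1} where
  τ a x := if h : D.XJ J (L.τ a x.1).1 then ⟨L.τ a x.1, h⟩ else x
  inv a x := by
    by_cases h : D.XJ J (L.τ a x.1).1
    · have h2 : L.τ a (L.τ a x.1) = x.1 := L.inv a x.1
      have h3 : D.XJ J (L.τ a (L.τ a x.1)).1 := by rw [h2]; exact x.2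
      rw [dif_pos h, dif_pos h3]
      exact Subtype.ext h2
    · rw [dif_neg h, dif_neg h]
  com a b hab x := by
    by_cases ha : D.XJ J (L.τ a x.1).1 <;> by_cases hb : D.XJ J (L.τ b x.1).1
    · have h1 := D.XJ_square hL hab J x.1 ha hb
      have h2 := D.XJ_square hL hab.symm J x.1 hb ha
      rw [dif_pos ha, dif_pos hb, dif_pos h1, dif_pos h2]
      exact Subtype.ext (L.com a b hab x.1)
    · rw [dif_pos ha, dif_neg hb, dif_pos ha]
      have h1 : ¬ D.XJ J (L.τ b (L.τ a x.1)).1 := by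
        intro h2
        have h3 : D.XJ J (L.τ a (L.τ a x.1)).1 := by rw [L.inv]; exact x.2
        have h4 := D.XJ_square hL hab J (L.τ a x.1) h3 h2
        rw [L.com a b hab, L.inv] at h4
        exact hb h4
      rw [dif_neg h1]
    · rw [dif_neg ha, dif_pos hb]
      have h1 : ¬ D.XJ J (L.τ a (L.τ b x.1)).1 := by
        intro h2
        have h3 : D.XJ J (L.τ b (L.τ b x.1)).1 := by rw [L.inv]; exact x.2
        have h4 := D.XJ_square hL hab.symm J (L.τ b x.1) h3 h2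
        rw [L.com b a hab.symm, L.inv] at h4
        exact ha h4
      rw [dif_neg h1]
    · rw [dif_neg ha, dif_neg hb, dif_neg ha]

theorem LJ_pos {H : Subgroup D.W} (L : LS (D.lg H) D.X) (hL : D.IsFlip H L) (J : Set D.S)
    (a : D.Lb H) (x : {x : D.X // D.XJ J x.1}) (h : D.XJ J (L.τ a x.1).1) :
    ((D.LJ L hL J).τ a x).1 = L.τ a x.1 := by
  have h1 : (D.LJ L hL J).τ a x = ⟨L.τ a x.1, h⟩ := dif_pos h
  rw [h1]

theorem LJ_neg {H : Subgroup D.W} (L : LS (D.lg H) D.X) (hL : D.IsFlip H L) (J : Set D.S)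
    (a : D.Lb H) (x : {x : D.X // D.XJ J x.1}) (h : ¬ D.XJ J (L.τ a x.1).1) :
    (D.LJ L hL J).τ a x = x := dif_neg h

/-- `par J` preserves `XJ J` -/
theorem XJ_act (hP : Stmt_PAR) (hV : Stmt_VX1) (J : Set D.S) {w : D.W}
    (hw : w ∈ D.par J) {x : Set D.V} (hx : D.XJ J x) : D.XJ J (D.act w x) := by
  obtain ⟨_, _, hPd, _, _, hPs⟩ := hP D J
  obtain ⟨_, hVact, _, _, _, hmem, _⟩ := hV D
  refine ⟨hVact x hx.1 w, ?_⟩
  intro φ hφ hφJ
  rw [hmem]
  have hw' := (D.par J).inv_mem hw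
  apply hx.2 _ (hPs _ hw' φ hφ hφJ)
  intro h
  apply hφJ
  intro s hs
  have h1 := hPd _ hw' φ s hs
  have h2 := h s hs
  rw [Pi.sub_apply, h2] at h1
  linarith

/-- the vertex `x ∈ XJ J` is reached from the base by `κ x` inside of `XJ J` -/
theorem LJ_path (hV : Stmt_VX1) (hV2 : Stmt_VX2) (hV4 : Stmt_VX4) {H : Subgroup D.W}
    (L : LS (D.lg H) D.X) (hL : D.IsFlip H L) {b : D.X} {κ : D.X → RC (D.lg H)}
    {c : H →* RC (D.lg H)} (hdev : D.Dev H L b κ c) (J : Set D.S) (hb : D.XJ J b.1) :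
    ∀ (n : ℕ) (x : {x : D.X // D.XJ J x.1}), (x.1.1 \ D.Ps).ncard = n →
      (D.LJ L hL J).r ⟨b, hb⟩ (κ x.1) = x := by
  obtain ⟨hVP, _, _, _, _, _, _, _, _, _, hfin⟩ := hV D
  intro n
  induction n with
  | zero =>
    intro x hx
    obtain ⟨h1, _, h3⟩ := hfin x.1.1 x.1.2 D.Ps hVP
    have h4 : x.1.1 \ D.Ps = ∅ := (Set.ncard_eq_zero h1).mp hx
    have h5 : x.1.1 = D.Ps := h3 (Set.sdiff_eq_empty.mp h4)
    have h6 : x.1 = b := Subtype.ext (h5.trans hdev.base.symm)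
    rw [h6, hdev.one, LS.r_one]
    exact Subtype.ext h6.symm
  | succ n ih =>
    intro x hx
    have h1 : (x.1.1 \ D.Ps).Nonempty := by
      rw [Set.nonempty_iff_ne_empty]
      intro h
      rw [h, Set.ncard_empty] at hx
      omega
    obtain ⟨φ, hφx, hφP⟩ := h1
    obtain ⟨ψ, hψ, hψP, _, hcard⟩ := hV4 D x.1.1 x.1.2 D.Ps hVP φ hφx hφP
    obtain ⟨hz, hzm, hzf, hzne, _⟩ := hV2 D x.1.1 x.1.2 ψ hψ
    let z : D.X := ⟨D.fl x.1.1 ψ, hz⟩
    have hzJ : D.XJ J z.1 := by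
      refine ⟨hz, ?_⟩
      intro χ hχ hχJ
      refine Set.mem_insert_of_mem _ ⟨x.2.2 χ hχ hχJ, ?_⟩
      intro h
      rw [Set.mem_singleton_iff] at h
      rw [h] at hχ
      exact hψP hχ
    have hψR : ψ ∈ D.Rt := x.1.2.sub hψ.1
    let a : D.Lb H := ⟨D.lab H ψ, ψ, hψR, rfl⟩
    have ha : -ψ ∈ a.1 := ⟨1, H.one_mem, Or.inr (by rw [map_one, Module.End.one_apply])⟩
    have h2 : L.τ a z = x.1 := by
      apply Subtype.ext
      rw [(hL a z).1 (-ψ) hzm ha]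
      exact hzf
    have h3 : κ x.1 = κ z * rg (D.lg H) a := by
      have h4 := hdev.step a z (by
        rw [h2]
        intro h5
        exact hzne (congrArg Subtype.val h5).symm)
      rw [h2] at h4
      exact h4
    have h5 : (D.LJ L hL J).r ⟨b, hb⟩ (κ z) = ⟨z, hzJ⟩ := ih ⟨z, hzJ⟩ (by
      have h6 : (z.1 \ D.Ps).ncard + 1 = n + 1 := hcard.trans hx
      have h7 : (z.1 \ D.Ps).ncard = n := by omega
      exact h7)
    rw [h3, LS.r_mul, h5, LS.r_rg]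
    apply Subtype.ext
    rw [D.LJ_pos L hL J a ⟨z, hzJ⟩ (by
      change D.XJ J (L.τ a z).1
      rw [h2]
      exact x.2)]
    exact h2

end Rd

theorem ft_thm : Stmt_PAR → Stmt_VX1 → Stmt_VX2 → Stmt_VX4 → Stmt_COF → Stmt_LSX →
    Stmt_DEV → Stmt_DEEP → Stmt_FT := by
  intro hPar hV hV2 hV4 hC hLSX hDEV hDEEP D hAF J N hNJ hN
  obtain ⟨H, hH⟩ := (hDEEP D).1 hAF
  obtain ⟨⟨L, hL⟩, heqL⟩ := hLSX D H hH
  have heq := heqL L hL
  obtain ⟨b, κ, c, hdev, _⟩ := hDEV D H hH L hL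
  obtain ⟨hVP, hVact, h1, hm, hmem, hmem', hMn, hfree, _, _, _⟩ := hV D
  obtain ⟨P, hPf, _, hP⟩ := hC D hAF J
  have hfi : H.FiniteIndex := hH.fin
  -- the subgroup N ⊓ H
  have hNH : (N ⊓ H).relIndex (D.par J) ≠ 0 := by
    have h2 : H.IsFiniteRelIndex (D.par J) := Subgroup.isFiniteRelIndex_of_finiteIndex
    exact Subgroup.relIndex_inf_ne_zero hN h2.relIndex_ne_zero
  obtain ⟨α, hα, ι, hι⟩ := D.orb hV J P hPf hP (N ⊓ H) hNH
  have hbJ : D.XJ J b.1 := by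
    rw [hdev.base]
    exact ⟨hVP, fun φ hφ _ => hφ⟩
  let A : (N ⊓ H : Subgroup D.W) → {x : D.X // D.XJ J x.1} → {x : D.X // D.XJ J x.1} :=
    fun g x => ⟨⟨D.act g.1 x.1.1, hVact x.1.1 x.1.2 g.1⟩,
      D.XJ_act hPar hV J (hNJ g.2.1) x.2⟩
  have hAc : ∀ g a v, A g ((D.LJ L hL J).τ a v) = (D.LJ L hL J).τ a (A g v) := by
    intro g a v
    have h2 : (L.τ a (A g v).1).1 = D.act g.1 (L.τ a v.1).1 := heq g.1 g.2.2 a v.1 (A g v).1 rfl
    have hgJ := hNJ g.2.1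
    by_cases h3 : D.XJ J (L.τ a v.1).1
    · have h4 : D.XJ J (L.τ a (A g v).1).1 := by
        rw [h2]
        exact D.XJ_act hPar hV J hgJ h3
      apply Subtype.ext
      apply Subtype.ext
      rw [D.LJ_pos L hL J a (A g v) h4, h2]
      change D.act g.1 ((D.LJ L hL J).τ a v).1.1 = _
      rw [D.LJ_pos L hL J a v h3]
    · have h4 : ¬ D.XJ J (L.τ a (A g v).1).1 := by
        intro h5
        rw [h2] at h5
        have h6 := D.XJ_act hPar hV J ((D.par J).inv_mem hgJ) h5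
        rw [← hm, inv_mul_cancel, h1] at h6
        exact h3 h6
      rw [D.LJ_neg L hL J a v h3, D.LJ_neg L hL J a (A g v) h4]
  obtain ⟨K, _, hK, hKm, _⟩ := stab_fin (D.LJ L hL J) A
    (fun v => Subtype.ext (Subtype.ext (h1 v.1.1)))
    (fun g g' v => Subtype.ext (Subtype.ext (hm g.1 g'.1 v.1.1))) hAc ⟨b, hbJ⟩
    (by
      intro g hg
      have h2 : D.act g.1 D.Ps = D.Ps := by
        rw [← hdev.base]
        exact congrArg Subtype.val (congrArg Subtype.val hg)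
      exact Subtype.ext (hfree _ h2))
    (fun x => ι ⟨x.1.1, x.2⟩)
    (by
      intro v v' h
      obtain ⟨n, hn, hn2⟩ := hι _ _ h
      exact ⟨⟨n, hn⟩, Subtype.ext (Subtype.ext hn2)⟩)
  -- the finite index subgroup
  let M₀ : Subgroup D.W := (K.comap c).map H.subtype
  have hKc : (K.comap c).index ≠ 0 := by
    rw [Subgroup.index_comap]
    have h2 : K.IsFiniteRelIndex c.range := Subgroup.isFiniteRelIndex_of_finiteIndex
    exact h2.relIndex_ne_zero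
  have hM₀ : M₀.FiniteIndex := by
    rw [Subgroup.finiteIndex_iff]
    change ((K.comap c).map H.subtype).index ≠ 0
    rw [Subgroup.index_map_subtype]
    exact mul_ne_zero hKc (Subgroup.finiteIndex_iff.mp hfi)
  refine ⟨M₀.normalCore, inferInstance, inferInstance, ?_⟩
  rintro h ⟨hh, hhJ⟩
  have hh2 := M₀.normalCore_le hh
  obtain ⟨h', hh', rfl⟩ := hh2
  have hk : c h' ∈ K := hh'
  obtain ⟨g, hg⟩ := (hKm _).mp hk
  have hxJ : D.XJ J (D.act h'.1 b.1) := D.XJ_act hPar hV J hhJ hbJ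
  let y : D.X := ⟨D.act h'.1 b.1, hVact b.1 b.2 h'.1⟩
  have h2 : c h' = κ y := by
    have h3 := hdev.hol h' b y rfl
    rw [hdev.one, mul_one] at h3
    exact h3.symm
  rw [h2, D.LJ_path hV hV2 hV4 L hL hdev J hbJ _ ⟨y, hxJ⟩ rfl] at hg
  have h4 : D.act h'.1 b.1 = D.act g.1 b.1 := congrArg Subtype.val (congrArg Subtype.val hg)
  have h5 : D.act (g.1⁻¹ * h'.1) D.Ps = D.Ps := by
    rw [← hdev.base, hm, h4, ← hm, inv_mul_cancel, h1]
  have h6 := hfree _ h5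
  rw [inv_mul_eq_one] at h6
  change h'.1 ∈ N
  rw [← h6]
  exact g.2.1

end Pool.CS
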