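import Pool.Agent.Work.MP_64ea0f_cs_helper63.Orb

set_option autoImplicit false

/-! # VRC: virtual retraction -/

namespace Pool.CS

open Rd in
theorem vrc_thm : Stmt_VX1 → Stmt_COF → Stmt_LSX → Stmt_VRC := by
  intro hV hC hL D hAF H hH L hflip b κ c hdev
  obtain ⟨_, hVact, h1, hm, hmem, hmem', hMn, hfree, _⟩ := hV D
  obtain ⟨P, hPf, _, hP⟩ := hC D hAF Set.univ
  have heq := (hL D H hH).2 L hflip
  have hfi : H.FiniteIndex := hH.fin
  obtain ⟨α, hα, ι, hι⟩ := D.orb hV Set.univ P hPf hP H (by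
    have h2 : H.IsFiniteRelIndex (D.par Set.univ) := Subgroup.isFiniteRelIndex_of_finiteIndex
    exact h2.relIndex_ne_zero)
  have hXJ : ∀ x : D.X, D.XJ Set.univ x.1 := by
    intro x
    refine ⟨x.2, ?_⟩
    intro φ _ h
    exact absurd (fun s hs => absurd (Set.mem_univ s) hs) h
  let A : H → D.X → D.X := fun h x => ⟨D.act h.1 x.1, hVact x.1 x.2 h.1⟩
  obtain ⟨K, r, hK, hKm, hr⟩ := stab_fin L A
    (fun v => Subtype.ext (h1 v.1)) (fun g g' v => Subtype.ext (hm g.1 g'.1 v.1))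
    (fun g a v => Subtype.ext (heq g.1 g.2 a v (A g v) rfl).symm) b
    (by
      intro g hg
      have h2 : D.act g.1 D.Ps = D.Ps := by
        rw [← hdev.base]
        exact congrArg Subtype.val hg
      exact Subtype.ext (hfree _ h2))
    (fun x => ι ⟨x.1, hXJ x⟩)
    (by
      intro v v' h
      obtain ⟨n, hn, hn2⟩ := hι _ _ h
      exact ⟨⟨n, hn⟩, Subtype.ext hn2⟩)
  have hpath : ∀ h : H, L.r b (c h) = A h b := by
    intro h
    have h2 := hdev.hol h b (A h b) rfl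
    rw [hdev.one, mul_one] at h2
    rw [← h2]
    exact hdev.path _
  refine ⟨K, r, hK, ?_⟩
  intro h
  have hk : c h ∈ K := (hKm _).mpr ⟨h, hpath h⟩
  refine ⟨hk, ?_⟩
  have h3 := hr ⟨c h, hk⟩
  rw [hpath h] at h3
  have h4 : D.act ((r ⟨c h, hk⟩)⁻¹ * h).1 D.Ps = D.Ps := by
    rw [← hdev.base]
    have h5 : D.act h.1 b.1 = D.act (r ⟨c h, hk⟩).1 b.1 := congrArg Subtype.val h3
    rw [Subgroup.coe_mul, hm, h5, ← hm, Subgroup.coe_inv, inv_mul_cancel, h1]
  have h6 := Subtype.ext (a2 := (1 : H)) (hfree _ h4)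
  rw [inv_mul_eq_one] at h6
  exact h6

end Pool.CS
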