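import Pool.Agent.Work.MP_64ea0f_cs.InterfaceF

set_option autoImplicit false

/-! # F3: no commuting orthogonal elements -/

namespace Pool.CS

/-- a generator adjacent to all letters of a word commutes with the word -/
theorem rg_wp_comm {Λ : Type} (G : SimpleGraph Λ) (b : Λ) (w : List Λ) (h : ∀ s ∈ w, G.Adj b s) :
    rg G b * wp G w = wp G w * rg G b := by
  induction w with
  | nil => rw [wp_nil, mul_one, one_mul]
  | cons s w ih =>
    rw [wp_cons, ← mul_assoc, rg_comm (h s (List.mem_cons_self ..)), mul_assoc,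
      ih (fun t ht => h t (List.mem_cons_of_mem _ ht)), mul_assoc]

theorem rsub_wp_comm {Λ : Type} (G : SimpleGraph Λ) (w : List Λ) {a : RC G}
    (ha : a ∈ rsub G {b | ∀ s ∈ w, G.Adj b s}) : a * wp G w = wp G w * a := by
  rw [rsub] at ha
  induction ha using Subgroup.closure_induction with
  | mem x hx =>
    obtain ⟨b, hb, rfl⟩ := hx
    exact rg_wp_comm G b w hb
  | one => rw [one_mul, mul_one]
  | mul x y _ _ hx hy => rw [mul_assoc, hy, ← mul_assoc, hx, mul_assoc]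
  | inv x _ hx =>
    have h1 : x⁻¹ * (x * wp G w) * x⁻¹ = x⁻¹ * (wp G w * x) * x⁻¹ := by rw [hx]
    rw [← mul_assoc, inv_mul_cancel, one_mul, mul_assoc, mul_assoc, mul_inv_cancel, mul_one] at h1
    exact h1.symm

theorem wp_wp_comm {Λ : Type} (G : SimpleGraph Λ) (w l : List Λ) (h : ∀ s ∈ w, ∀ t ∈ l, G.Adj s t) :
    wp G w * wp G l = wp G l * wp G w := by
  induction w with
  | nil => rw [wp_nil, mul_one, one_mul]
  | cons s w ih =>
    rw [wp_cons, mul_assoc, ih (fun s' hs' => h s' (List.mem_cons_of_mem _ hs')), ← mul_assoc,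
      rg_wp_comm G s l (h s (List.mem_cons_self ..)), mul_assoc]

theorem Ess_pow (D : Rd) (J : Set D.S) (h : D.W) (hE : D.Ess J h) (m : ℕ) (hm : 0 < m) :
    D.Ess J (h ^ m) := by
  refine ⟨(D.par J).pow_mem hE.1 m, ?_⟩
  intro n hn g J' hg
  rw [← pow_mul] at hg
  exact hE.2 (m * n) (Nat.mul_pos hm hn) g J' hg

theorem f3_thm : Stmt_AX → Stmt_VX1 → Stmt_CMP → Stmt_CSU → Stmt_TRN → Stmt_F3C → Stmt_F3H →
    Stmt_F3G → Stmt_F3J → Stmt_LBF → Stmt_F3 := by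
  intro hAX hV hCMP hCSU hTRN hF3C hF3H hF3G hF3J hLBF D hAF H hH L hL b κ c hdev hcinj J h a w hE
    hc hw g hgJ hgI
  by_contra hg1
  obtain ⟨hVP, hVact, h1, hm, _, hmem', _, _, _, _, hfin⟩ := hV D
  have hfi : Finite (D.Lb H) := hLBF D H hH.fin
  obtain ⟨a1, ha1, l, hlI, hg2, hl, _⟩ := hAX (D.Lb H) (D.lg H) _ _ hgI
  obtain ⟨a2, ha2⟩ : ∃ a2, a2 = a * a1 := ⟨_, rfl⟩
  have hcomm := rsub_wp_comm (D.lg H) w ha1
  have hch : c (h ^ 2) = a2 * wp (D.lg H) w * a2⁻¹ := by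
    rw [hc, ha2, mul_inv_rev]
    calc a * wp (D.lg H) w * a⁻¹ = a * (wp (D.lg H) w * a1 * a1⁻¹) * a⁻¹ := by
          rw [mul_assoc (wp (D.lg H) w), mul_inv_cancel, mul_one]
      _ = a * (a1 * wp (D.lg H) w * a1⁻¹) * a⁻¹ := by rw [hcomm]
      _ = _ := by group
  have hcg : c (g ^ 2) = a2 * wp (D.lg H) l * a2⁻¹ := by
    rw [ha2, mul_inv_rev, map_pow]
    have e1 : c g ^ 2 = a * (a⁻¹ * c g * a) ^ 2 * a⁻¹ := by
      rw [pow_two, pow_two]
      group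
    rw [e1, hg2]
    group
  have hadj : ∀ s ∈ w, ∀ t ∈ l, (D.lg H).Adj s t := fun s hs t ht => (hlI t ht s hs).symm
  obtain ⟨x0, hx0⟩ : ∃ x0, x0 = L.r b a2 := ⟨_, rfl⟩
  -- `g ^ 2` moves `x0`
  have hg2ne : g ^ 2 ≠ 1 := by
    intro h2
    apply hg1
    apply Subtype.ext
    have h3 : g.1 ^ 2 = 1 := by
      have := congrArg Subtype.val h2
      simpa using this
    exact hH.tf g.1 g.2 2 (by norm_num) h3
  have hmove : ¬ x0.1 ⊆ D.act (g ^ 2).1 x0.1 := by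
    intro h2
    have h3 : x0.1 = D.act (g ^ 2).1 x0.1 :=
      (hfin x0.1 x0.2 _ (hVact x0.1 x0.2 (g ^ 2).1)).2.2 h2
    have h4 := hdev.hol (g ^ 2) x0 x0 h3
    have h5 : c (g ^ 2) = 1 := by
      have h6 : 1 * κ x0 = c (g ^ 2) * κ x0 := by rw [one_mul]; exact h4
      exact (mul_right_cancel h6).symm
    apply hg2ne
    apply hcinj
    rw [h5, map_one]
  obtain ⟨β, hβx, hβg⟩ := Set.not_subset.mp hmove
  have hβR : β ∈ D.Rt := x0.2.sub hβx
  have hTβ : D.Trn (g ^ 2).1 β := by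
    rw [hx0] at hβx hβg
    exact hF3H D H hH L hL b κ c hdev (g ^ 2) a2 l hcg hl β hβx hβg
  have hg2J : (g ^ 2).1 ∈ D.par J := by
    rw [Subgroup.coe_pow]
    exact (D.par J).pow_mem hgJ 2
  have hβJ : D.In J β := (hTRN D (g ^ 2).1 β hβR hTβ).2.2 J hg2J
  -- the component
  have hβ0 : ∃ s0, β s0 ≠ 0 := by
    by_contra hcon
    push Not at hcon
    have h3 : β = 0 := funext hcon
    have h4 := hTβ 1 one_pos
    rw [h3, map_zero] at h4
    exact h4.2 rfl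
  obtain ⟨s0, hs0⟩ := hβ0
  have hs0J : s0 ∈ J := by
    by_contra h3
    exact hs0 (hβJ s0 h3)
  obtain ⟨K, hKJ, hs0K, hKc, hKs⟩ := hCMP D J s0 hs0J
  have hβK : D.In K β := by
    rcases hCSU D K (J \ K) hKs β hβR (by rw [Set.union_sdiff_cancel hKJ]; exact hβJ) with h3 | h3
    · exact h3
    · exact absurd (h3 s0 (fun h' => h'.2 hs0K)) hs0
  have hE2 : D.Ess J (h ^ 2).1 := by
    rw [Subgroup.coe_pow]
    exact Ess_pow D J h.1 hE 2 (by norm_num)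
  obtain ⟨α, hαx, hαh, hαK⟩ := hF3J D J K (h ^ 2).1 hE2 hKJ ⟨s0, hs0K⟩ hKs x0.1 x0.2
  have hαR : α ∈ D.Rt := x0.2.sub hαx
  have hTα : D.Trn (h ^ 2).1 α := by
    rw [hx0] at hαx hαh
    exact hF3H D H hH L hL b κ c hdev (h ^ 2) a2 w hch hw α hαx hαh
  have hgα : D.ρ (g ^ 2).1 α = α := by
    rw [hx0] at hαx hαh
    exact hF3G D H hH L hL b κ c hdev (h ^ 2) (g ^ 2) a2 w l hch hcg hadj α hαx hαh
  have hhβ : D.ρ (h ^ 2).1 β = β := by
    rw [hx0] at hβx hβg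
    exact hF3G D H hH L hL b κ c hdev (g ^ 2) (h ^ 2) a2 l w hcg hch
      (fun s hs t ht => (hadj t ht s hs).symm) β hβx hβg
  have hcom : (h ^ 2) * (g ^ 2) = (g ^ 2) * (h ^ 2) := by
    apply hcinj
    rw [map_mul, map_mul, hch, hcg]
    calc a2 * wp (D.lg H) w * a2⁻¹ * (a2 * wp (D.lg H) l * a2⁻¹)
        = a2 * (wp (D.lg H) w * wp (D.lg H) l) * a2⁻¹ := by group
      _ = a2 * (wp (D.lg H) l * wp (D.lg H) w) * a2⁻¹ := by
          rw [wp_wp_comm (D.lg H) w l hadj]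
      _ = _ := by group
  have hcom' : (h ^ 2).1 * (g ^ 2).1 = (g ^ 2).1 * (h ^ 2).1 := congrArg Subtype.val hcom
  exact hF3C D hAF J K (h ^ 2).1 (g ^ 2).1 hE2 hKJ hKc hKs hcom' α hαR β hβR hαK hβK hTα hgα hTβ hhβ

end Pool.CS
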